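import Mathlib

set_option autoImplicit false

namespace Pool.Agent.Results.MP_78fb5d_an.Counter

theorem result : ∃ (M : ℕ) (_ : NeZero M) (E : Finset (ZMod M)) (μ : ZMod M → ℝ),
    (∀ y, 0 ≤ μ y) ∧ μ 0 = 1 ∧
    (∀ x : ZMod M, ∑ y : ZMod M, (if x - y ∈ E then (1 : ℝ) else 0) * μ y = 1) ∧
    (∃ T : Finset (ZMod M), ∀ x, ∃! p : ZMod M × ZMod M, p.1 ∈ E ∧ p.2 ∈ T ∧ x = p.1 + p.2) ∧
    ¬ ∃ (N : ℕ) (T : Fin N → Finset (ZMod M)) (c : Fin N → ℝ),
      (∀ k x, ∃! p : ZMod M × ZMod M, p.1 ∈ E ∧ p.2 ∈ T k ∧ x = p.1 + p.2) ∧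
      (∀ k, 0 ≤ c k) ∧ ∑ k, c k = 1 ∧
      ∀ y, μ y = ∑ k, c k * (if y ∈ T k then (1 : ℝ) else 0) := by
  let m : ZMod 24 → ℕ := fun y =>
    if y ∈ ({0, 8, 16} : Finset (ZMod 24)) then 2
    else if y ∈ ({5, 7, 9, 17, 19, 21} : Finset (ZMod 24)) then 1 else 0
  refine ⟨24, inferInstance, {0, 4, 6, 10}, fun y => (m y : ℝ) / 2, fun y => by positivity,
    by simp [m], fun x => ?_, ⟨{0, 8, 16, 1, 9, 17}, ?_⟩, ?_⟩
  · have h : ∀ x : ZMod 24,
        ∑ y, (if x - y ∈ ({0, 4, 6, 10} : Finset (ZMod 24)) then 1 else 0) * m y = 2 := by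
      decide +kernel
    have h2 := congrArg (fun n : ℕ => (n : ℝ) / 2) (h x)
    simp only [Nat.cast_sum, Nat.cast_mul, Nat.cast_ite, Nat.cast_one, Nat.cast_zero,
      Finset.sum_div, mul_div_assoc] at h2
    rw [h2]; norm_num
  · intro x
    have h : ∀ x : ZMod 24, (({0, 8, 16, 1, 9, 17} : Finset (ZMod 24)).filter
        fun t => x - t ∈ ({0, 4, 6, 10} : Finset (ZMod 24))).card = 1 := by decide +kernel
    obtain ⟨t, ht⟩ := Finset.card_eq_one.1 (h x)
    obtain ⟨h1, h2⟩ := Finset.eq_singleton_iff_unique_mem.1 ht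
    rw [Finset.mem_filter] at h1
    refine ⟨(x - t, t), ⟨h1.2, h1.1, by simp⟩, ?_⟩
    rintro ⟨a, b⟩ ⟨p1, p2, rfl⟩
    have := h2 b (Finset.mem_filter.2 ⟨p2, by simpa using p1⟩)
    subst this
    simp
  · rintro ⟨N, T, c, hT, hc, hs, hμ⟩
    obtain ⟨k, hk⟩ : ∃ k, c k ≠ 0 := by
      by_contra h
      push Not at h
      simp [h] at hs
    have hsub : ∀ y ∈ T k, m y ≠ 0 := by
      intro y hy h0
      have h1 := hμ y
      simp only [h0, Nat.cast_zero, zero_div] at h1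
      have h2 := (Finset.sum_eq_zero_iff_of_nonneg fun i _ =>
        mul_nonneg (hc i) (by split_ifs <;> norm_num)).1 h1.symm k (Finset.mem_univ _)
      rw [if_pos hy, mul_one] at h2
      exact hk h2
    have key : ∀ x s t : ZMod 24, s ≠ t → x - s ∈ ({0, 4, 6, 10} : Finset (ZMod 24)) →
        x - t ∈ ({0, 4, 6, 10} : Finset (ZMod 24)) →
        (∀ y, m y ≠ 0 → x - y ∈ ({0, 4, 6, 10} : Finset (ZMod 24)) → y = s ∨ y = t) →
        (s ∈ T k ↔ t ∉ T k) := by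
      intro x s t hst h1 h2 h3
      obtain ⟨p, ⟨p1, p2, p3⟩, hp⟩ := hT k x
      refine ⟨fun a b => hst ?_, fun a => ?_⟩
      · exact (congrArg Prod.snd (hp (x - s, s) ⟨h1, a, by simp⟩)).trans
          (congrArg Prod.snd (hp (x - t, t) ⟨h2, b, by simp⟩)).symm
      · rcases h3 p.2 (hsub _ p2) (by rwa [p3, add_sub_cancel_right]) with e | e
        · exact e ▸ p2
        · exact absurd (e ▸ p2) a
    have a1 := key 9 9 5 (by decide) (by decide) (by decide) (by decide +kernel)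
    have a2 := key 11 7 5 (by decide) (by decide) (by decide) (by decide +kernel)
    have a3 := key 13 9 7 (by decide) (by decide) (by decide) (by decide +kernel)
    tauto

end Pool.Agent.Results.MP_78fb5d_an.Counter
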